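import Pool.Agent.Lib.MP_ed1a61_al_own.Geo
import Pool.Agent.Lib.MP_ed1a61_al_own.Lim

/-!
# A hyperbolic group with an element whose stable commutator length is irrational

`Γ` is the group with generators `a, b, t, s, c, d, e, f` and relators `t a t⁻¹ φ(a)⁻¹`,
`t b t⁻¹ φ(b)⁻¹`, `s ^ 2`, `b ^ 6000 ([c, d] [e, f])⁻¹`, where

* `φ(a) = a⁴ b a² b³ a² b² a b² a² b a²`,
* `φ(b) = b a b a² b a b a⁶ b² a³ b a b² a b a b`.

The group `Γ` is hyperbolic, the element `g = (a s b s) ^ 24` lies in `[Γ, Γ]`, and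
`scl g = 12 + 3 (17 - √145) / 8000`, which is irrational.
-/

set_option autoImplicit false

namespace Pool.Agent.Results.MP_ed1a61_al.IrrationalScl

open Filter Topology

/-- The commutator length: the least `k` such that `g` is a product `[x₁, y₁] ⋯ [x_k, y_k]` of `k`
commutators `[x, y] = x y x⁻¹ y⁻¹` (`0` if there is no such `k`). -/
noncomputable def cl {G : Type} [Group G] (g : G) : ℕ :=
  sInf {k : ℕ | ∃ x y : Fin k → G,
    (List.ofFn fun i => x i * y i * (x i)⁻¹ * (y i)⁻¹).prod = g}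

/-- The four point condition of Gromov for the graph metric. -/
def FourPoint {V : Type} (X : SimpleGraph V) (δ : ℕ) : Prop :=
  ∀ x y z w : V, X.dist x z + X.dist y w ≤
    max (X.dist x y + X.dist z w) (X.dist x w + X.dist y z) + 2 * δ

/-- Slim triangles (Rips): a vertex of a side of a geodesic triangle is at distance at most `δ`
from a vertex of one of the two other sides. -/
def Slim {V : Type} (X : SimpleGraph V) (δ : ℕ) : Prop :=
  ∀ (x y z : V) (p : X.Walk x y) (q : X.Walk y z) (r : X.Walk z x),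
    p.length = X.dist x y → q.length = X.dist y z → r.length = X.dist z x →
      ∀ v ∈ p.support, ∃ w, (w ∈ q.support ∨ w ∈ r.support) ∧ X.dist v w ≤ δ

/-- Hyperbolic groups: the Cayley graph of `G` with respect to a finite generating set is
`δ`-hyperbolic for some `δ`. -/
def Hyperbolic (G : Type) [Group G] : Prop :=
  ∃ S : Finset G, Subgroup.closure (S : Set G) = ⊤ ∧
    ∃ δ : ℕ, FourPoint (SimpleGraph.mulCayley (S : Set G)) δ ∧
      Slim (SimpleGraph.mulCayley (S : Set G)) δ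

/-- the eight generators -/
inductive Gen
  | a | b | t | s | c | d | e | f
  deriving DecidableEq, Fintype

/-- the word `φ(a)` -/
def phiA {G : Type} [Group G] (a b : G) : G :=
  a ^ 4 * b * a ^ 2 * b ^ 3 * a ^ 2 * b ^ 2 * a * b ^ 2 * a ^ 2 * b * a ^ 2

/-- the word `φ(b)` -/
def phiB {G : Type} [Group G] (a b : G) : G :=
  b * a * b * a ^ 2 * b * a * b * a ^ 6 * b ^ 2 * a ^ 3 * b * a * b ^ 2 * a * b * a * b

/-- the four relators -/
def rels : Set (FreeGroup Gen) :=
  let a := FreeGroup.of Gen.a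
  let b := FreeGroup.of Gen.b
  let t := FreeGroup.of Gen.t
  let s := FreeGroup.of Gen.s
  let c := FreeGroup.of Gen.c
  let d := FreeGroup.of Gen.d
  let e := FreeGroup.of Gen.e
  let f := FreeGroup.of Gen.f
  {t * a * t⁻¹ * (phiA a b)⁻¹, t * b * t⁻¹ * (phiB a b)⁻¹, s ^ 2,
    b ^ 6000 * (c * d * c⁻¹ * d⁻¹ * (e * f * e⁻¹ * f⁻¹))⁻¹}

/-- the group -/
abbrev Γ : Type := PresentedGroup rels

/-- the generators as elements of the group -/
def γ (x : Gen) : Γ := PresentedGroup.of x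

/-- the element `(a s b s) ^ 24` -/
def g : Γ := (γ Gen.a * γ Gen.s * γ Gen.b * γ Gen.s) ^ 24

/-! ## The relations in `Γ` -/

theorem mk_rel {r : FreeGroup Gen} (hr : r ∈ rels) : FreeGroup.lift γ r = 1 := by
  have h : FreeGroup.lift γ = PresentedGroup.mk rels :=
    FreeGroup.ext_hom _ _ fun x => by
      rw [FreeGroup.lift_apply_of]
      rfl
  rw [h, PresentedGroup.mk_eq_one_iff]
  exact Subgroup.subset_normalClosure hr

theorem map_phiA {G H : Type} [Group G] [Group H] (F : G →* H) (a b : G) :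
    F (phiA a b) = phiA (F a) (F b) := by
  simp [phiA]

theorem map_phiB {G H : Type} [Group G] [Group H] (F : G →* H) (a b : G) :
    F (phiB a b) = phiB (F a) (F b) := by
  simp [phiB]

theorem rel1 : γ Gen.t * γ Gen.a * (γ Gen.t)⁻¹ = phiA (γ Gen.a) (γ Gen.b) := by
  have h := mk_rel (r := FreeGroup.of Gen.t * FreeGroup.of Gen.a * (FreeGroup.of Gen.t)⁻¹ *
    (phiA (FreeGroup.of Gen.a) (FreeGroup.of Gen.b))⁻¹) (by simp [rels])
  rw [map_mul, map_inv, map_phiA, mul_inv_eq_one] at h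
  simpa using h

theorem rel2 : γ Gen.t * γ Gen.b * (γ Gen.t)⁻¹ = phiB (γ Gen.a) (γ Gen.b) := by
  have h := mk_rel (r := FreeGroup.of Gen.t * FreeGroup.of Gen.b * (FreeGroup.of Gen.t)⁻¹ *
    (phiB (FreeGroup.of Gen.a) (FreeGroup.of Gen.b))⁻¹) (by simp [rels])
  rw [map_mul, map_inv, map_phiB, mul_inv_eq_one] at h
  simpa using h

theorem rel3 : γ Gen.s * γ Gen.s = 1 := by
  have h := mk_rel (r := FreeGroup.of Gen.s ^ 2) (by simp [rels])
  rw [map_pow, FreeGroup.lift_apply_of, pow_two] at h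
  exact h

theorem rel4 : γ Gen.b ^ 6000 = γ Gen.c * γ Gen.d * (γ Gen.c)⁻¹ * (γ Gen.d)⁻¹ *
    (γ Gen.e * γ Gen.f * (γ Gen.e)⁻¹ * (γ Gen.f)⁻¹) := by
  have h := mk_rel (r := FreeGroup.of Gen.b ^ 6000 *
    (FreeGroup.of Gen.c * FreeGroup.of Gen.d * (FreeGroup.of Gen.c)⁻¹ * (FreeGroup.of Gen.d)⁻¹ *
      (FreeGroup.of Gen.e * FreeGroup.of Gen.f * (FreeGroup.of Gen.e)⁻¹ *
        (FreeGroup.of Gen.f)⁻¹))⁻¹)
    (Or.inr (Or.inr (Or.inr rfl)))
  rw [map_mul, map_inv, mul_inv_eq_one, map_pow] at h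
  simpa only [map_mul, map_inv, FreeGroup.lift_apply_of] using h

/-! ## The two presentations -/

/-- the generators in the two presentations -/
def toX : Gen → SclIrr.X
  | Gen.a => SclIrr.X.a
  | Gen.b => SclIrr.X.b
  | Gen.t => SclIrr.X.t
  | Gen.s => SclIrr.X.s
  | Gen.c => SclIrr.X.c
  | Gen.d => SclIrr.X.d
  | Gen.e => SclIrr.X.e
  | Gen.f => SclIrr.X.f

/-- the generators in the two presentations -/
def ofX : SclIrr.X → Gen
  | SclIrr.X.a => Gen.a
  | SclIrr.X.b => Gen.b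
  | SclIrr.X.t => Gen.t
  | SclIrr.X.s => Gen.s
  | SclIrr.X.c => Gen.c
  | SclIrr.X.d => Gen.d
  | SclIrr.X.e => Gen.e
  | SclIrr.X.f => Gen.f

theorem ofX_toX (x : Gen) : ofX (toX x) = x := by cases x <;> rfl

theorem toX_ofX (x : SclIrr.X) : toX (ofX x) = x := by cases x <;> rfl

theorem phiA_eq {G : Type} [Group G] (a b : G) :
    ((SclIrr.W.phL 0).map ![a, b]).prod = phiA a b := by
  simp [SclIrr.W.phL, phiA, pow_succ, mul_assoc]

theorem phiB_eq {G : Type} [Group G] (a b : G) :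
    ((SclIrr.W.phL 1).map ![a, b]).prod = phiB a b := by
  simp [SclIrr.W.phL, phiB, pow_succ, mul_assoc]

theorem fwd_rel : ∀ r ∈ rels, FreeGroup.lift (fun x => SclIrr.gam (toX x)) r = 1 := by
  have e : ∀ x, FreeGroup.lift (fun x => SclIrr.gam (toX x)) (FreeGroup.of x) =
      SclIrr.gam (toX x) := fun x => FreeGroup.lift_apply_of
  intro r hr
  simp only [rels, Set.mem_insert_iff, Set.mem_singleton_iff] at hr
  rcases hr with h | h | h | h <;> rw [h]
  · rw [map_mul, map_inv, map_phiA, mul_inv_eq_one, map_mul, map_mul, map_inv, e, e, e, ← phiA_eq]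
    exact SclIrr.Z.ga
  · rw [map_mul, map_inv, map_phiB, mul_inv_eq_one, map_mul, map_mul, map_inv, e, e, e, ← phiB_eq]
    exact SclIrr.Z.gb
  · rw [map_pow, e, pow_two]
    exact SclIrr.N.rel_s
  · rw [map_mul, map_inv, mul_inv_eq_one, map_pow]
    simp only [map_mul, map_inv, e]
    exact SclIrr.Z.gx

theorem bwd_rel (j : SclIrr.R) : SclIrr.N.val (fun x => γ (ofX x)) (SclIrr.rel j) = 1 := by
  cases j with
  | tab y =>
    rw [SclIrr.rel, SclIrr.N.val_append, SclIrr.N.val_invRev, SclIrr.Z.val_pos, mul_inv_eq_one]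
    fin_cases y
    · simp only [SclIrr.N.val, List.map_cons, List.map_nil, List.prod_cons, List.prod_nil,
        SclIrr.N.lv]
      refine Eq.trans ?_ ((rel1).trans (phiA_eq _ _).symm)
      simp [SclIrr.ab, ofX, mul_assoc]
    · simp only [SclIrr.N.val, List.map_cons, List.map_nil, List.prod_cons, List.prod_nil,
        SclIrr.N.lv]
      refine Eq.trans ?_ ((rel2).trans (phiB_eq _ _).symm)
      simp [SclIrr.ab, ofX, mul_assoc]
  | ss =>
    simp only [SclIrr.rel, SclIrr.N.val, List.map_cons, List.map_nil, List.prod_cons,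
      List.prod_nil, SclIrr.N.lv]
    simpa [ofX] using rel3
  | bx =>
    rw [SclIrr.rel, SclIrr.N.val_append, SclIrr.N.val_invRev, mul_inv_eq_one]
    have h1 : SclIrr.N.val (fun x => γ (ofX x)) (List.replicate SclIrr.mexp (SclIrr.X.b, true)) =
        γ Gen.b ^ 6000 := by
      rw [SclIrr.N.val, List.map_replicate, List.prod_replicate, SclIrr.N.lv, if_pos rfl]
      rfl
    rw [h1, rel4]
    simp [SclIrr.N.val, SclIrr.xW, SclIrr.N.lv, SclIrr.cf, ofX, mul_assoc]

theorem exists_equiv : ∃ E : Γ ≃* SclIrr.G, ∀ x, E (γ x) = SclIrr.gam (toX x) := by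
  obtain ⟨B, hB⟩ := SclIrr.N.exists_hom (fun x => γ (ofX x)) bwd_rel
  let F : Γ →* SclIrr.G := PresentedGroup.toGroup fwd_rel
  have hF : ∀ x, F (γ x) = SclIrr.gam (toX x) := fun x => PresentedGroup.toGroup.of fwd_rel
  have h1 : B.comp F = MonoidHom.id Γ := by
    refine PresentedGroup.ext fun x => ?_
    change B (F (γ x)) = γ x
    rw [hF, hB, ofX_toX]
  have h2 : F.comp B = MonoidHom.id SclIrr.G := by
    refine PresentedGroup.ext fun x => ?_
    change F (B (SclIrr.gam x)) = SclIrr.gam x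
    rw [hB, hF, toX_ofX]
  exact ⟨MonoidHom.toMulEquiv F B h1 h2, hF⟩

/-! ## Commutator length -/

theorem cl_eq {G : Type} [Group G] (h : G) : cl h = sInf {k : ℕ | Pool.MP_ed1a61_al.Fill.CL k h} := by
  unfold cl
  congr 1
  ext k
  constructor
  · rintro ⟨x, y, rfl⟩
    refine ⟨List.ofFn fun i => x i * y i * (x i)⁻¹ * (y i)⁻¹, by simp, ?_, rfl⟩
    intro c hc
    obtain ⟨i, rfl⟩ := List.mem_ofFn.1 hc
    exact ⟨x i, y i, rfl⟩
  · rintro ⟨l, rfl, h2, rfl⟩
    have h3 : ∀ i : Fin l.length, ∃ x y : G, x * y * x⁻¹ * y⁻¹ = l.get i :=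
      fun i => h2 _ (l.get_mem i)
    choose x y hxy using h3
    refine ⟨x, y, ?_⟩
    simp only [hxy, List.ofFn_get]

theorem CL_map {G H : Type} [Group G] [Group H] (F : G →* H) {k : ℕ} {h : G}
    (hk : Pool.MP_ed1a61_al.Fill.CL k h) : Pool.MP_ed1a61_al.Fill.CL k (F h) := by
  obtain ⟨l, h1, h2, h3⟩ := hk
  refine ⟨l.map F, by simpa using h1, ?_, by rw [← h3, map_list_prod]⟩
  intro c hc
  obtain ⟨c', hc', rfl⟩ := List.mem_map.1 hc
  obtain ⟨x, y, rfl⟩ := h2 c' hc'
  exact ⟨F x, F y, (map_commutatorElement F x y).symm⟩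

theorem cl_map {G H : Type} [Group G] [Group H] (E : G ≃* H) (h : G) : cl (E h) = cl h := by
  rw [cl_eq, cl_eq]
  congr 1
  ext k
  constructor
  · intro hk
    have h1 := CL_map E.symm.toMonoidHom hk
    simpa using h1
  · intro hk
    exact CL_map E.toMonoidHom hk

/-! ## Hyperbolicity -/

theorem hyperbolic : Hyperbolic Γ := by
  classical
  obtain ⟨E, hE⟩ := exists_equiv
  let S : Finset Γ := Finset.univ.image γ
  have hS : ∀ x, x ∈ S ↔ ∃ y, γ y = x := fun x => by
    simp only [S, Finset.mem_image, Finset.mem_univ, true_and]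
  have hcl : Subgroup.closure (S : Set Γ) = ⊤ := by
    have h : (S : Set Γ) = Set.range (γ : Gen → Γ) := by
      ext x
      rw [Finset.mem_coe, hS]
      rfl
    rw [h]
    exact PresentedGroup.closure_range_of _
  have hS' : ∀ x : SclIrr.G, x ∈ S.image E ↔ ∃ y, SclIrr.gam y = x := fun x => by
    rw [Finset.mem_image]
    constructor
    · rintro ⟨z, hz, rfl⟩
      obtain ⟨y, rfl⟩ := (hS z).1 hz
      exact ⟨toX y, (hE y).symm⟩
    · rintro ⟨y, rfl⟩
      exact ⟨γ (ofX y), (hS _).2 ⟨_, rfl⟩, by rw [hE, toX_ofX]⟩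
  obtain ⟨δ, hδ⟩ := SclIrr.N.four_point SclIrr.Q.glue.1 SclIrr.Q.glue.2.1 hS'
    (d := fun x y : SclIrr.G => sInf {n : ℕ | ∃ l : List SclIrr.G, l.length = n ∧
      (∀ s ∈ l, s ∈ S.image E ∨ s⁻¹ ∈ S.image E) ∧ l.prod = x⁻¹ * y}) (fun _ _ => rfl)
  have hmem : ∀ x : Γ, E x ∈ S.image E ↔ x ∈ S := fun x => by
    rw [Finset.mem_image]
    constructor
    · rintro ⟨z, hz, h⟩
      rwa [← E.injective h]
    · exact fun h => ⟨x, h, rfl⟩
  have hdist : ∀ x y : Γ, (SimpleGraph.mulCayley (S : Set Γ)).dist x y =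
      sInf {n : ℕ | ∃ l : List SclIrr.G, l.length = n ∧
      (∀ s ∈ l, s ∈ S.image E ∨ s⁻¹ ∈ S.image E) ∧ l.prod = (E x)⁻¹ * E y} := fun x y => by
    rw [SclIrr.Own.cay_dist hcl]
    congr 1
    ext n
    constructor
    · rintro ⟨l, h1, h2, h3⟩
      refine ⟨l.map E, by simpa using h1, ?_, ?_⟩
      · intro s hs
        obtain ⟨s', hs', rfl⟩ := List.mem_map.1 hs
        rw [← map_inv, hmem, hmem]
        exact h2 s' hs'
      · rw [← map_list_prod, h3, map_mul, map_inv]
    · rintro ⟨l, h1, h2, h3⟩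
      refine ⟨l.map E.symm, by simpa using h1, ?_, ?_⟩
      · intro s hs
        obtain ⟨s', hs', rfl⟩ := List.mem_map.1 hs
        have h4 := h2 s' hs'
        rw [Finset.mem_coe, Finset.mem_coe, ← hmem, ← hmem, map_inv, E.apply_symm_apply]
        exact h4
      · rw [← map_list_prod, h3, map_mul, map_inv, E.symm_apply_apply, E.symm_apply_apply]
  have h4 : ∀ x y z w : Γ, (SimpleGraph.mulCayley (S : Set Γ)).dist x z +
      (SimpleGraph.mulCayley (S : Set Γ)).dist y w ≤
      max ((SimpleGraph.mulCayley (S : Set Γ)).dist x y +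
        (SimpleGraph.mulCayley (S : Set Γ)).dist z w)
      ((SimpleGraph.mulCayley (S : Set Γ)).dist x w +
        (SimpleGraph.mulCayley (S : Set Γ)).dist y z) + 2 * δ := fun x y z w => by
    rw [hdist, hdist, hdist, hdist, hdist, hdist]
    exact hδ (E x) (E y) (E z) (E w)
  refine ⟨S, hcl, 4 * δ, fun x y z w => (h4 x y z w).trans (by omega), ?_⟩
  intro x y z p q r hp hq hr v hv
  exact SclIrr.Own.slim_of_four (SclIrr.Own.cay_connected hcl) h4 hp hq hr hv

/-- There are a hyperbolic group and an element of its commutator subgroup whose stable commutator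
length is irrational. -/
theorem result :
    Hyperbolic Γ ∧ g ∈ commutator Γ ∧
      Tendsto (fun n : ℕ => (cl (g ^ n) : ℝ) / (n : ℝ)) atTop
        (𝓝 (12 + 3 * (17 - Real.sqrt 145) / 8000)) ∧
      Irrational (12 + 3 * (17 - Real.sqrt 145) / 8000) := by
  obtain ⟨E, hE⟩ := exists_equiv
  obtain ⟨h1, h2⟩ := SclIrr.Own.scl_G
  have hg : E g = (SclIrr.gam SclIrr.X.a * SclIrr.gam SclIrr.X.s * SclIrr.gam SclIrr.X.b *
      SclIrr.gam SclIrr.X.s) ^ 24 := by
    rw [g, map_pow, map_mul, map_mul, map_mul, hE, hE, hE]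
    rfl
  rw [← hg] at h1 h2
  refine ⟨hyperbolic, ?_, ?_, SclIrr.Own.irrational_value⟩
  · have h3 : (commutator Γ).map E.toMonoidHom = commutator SclIrr.G := by
      rw [commutator_def, commutator_def, Subgroup.map_commutator]
      rw [Subgroup.map_top_of_surjective _ E.surjective]
    rw [← h3] at h1
    obtain ⟨y, hy, h4⟩ := h1
    rwa [← E.injective h4]
  · refine h2.congr fun n => ?_
    rw [← map_pow, ← cl_eq, cl_map]

end Pool.Agent.Results.MP_ed1a61_al.IrrationalScl
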