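import Pool.Agent.Lib.MP_ed1a61_al.Fill.MainStrong

/-!
# Stable commutator length in large fillings of free groups

`F` is a free group, `r i` (`i : ι`, `ι` finite) are elements of `F` that are not proper powers
and are pairwise not conjugate, also not to inverses, and `g` is in the commutator subgroup.
For `N : ι → ℕ` let `G_N` be the quotient of `F` by the normal closure of the `r i ^ N i`.
There are a finite set `J` of pairs `(c, w)` of a rational number `c ≥ 0` and of rational numbers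
`w i ≥ 0` and natural numbers `N0, M > 0` such that, when all `N i` are at least `N0` and
divisible by `M`, the stable commutator length of the image of `g` in `G_N` is the minimum of
`c - ∑ i, w i / N i` over `(c, w)` in `J`; in particular it is rational.
-/

set_option autoImplicit false

namespace Pool.Agent.Results.MP_ed1a61_al.LargeFillings

open Filter Topology Pool.MP_ed1a61_al

/-- the commutator length: the least `k` such that `h` is a product of `k` commutators
(`0` if there is no such `k`) -/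
noncomputable def cl {G : Type} [Group G] (h : G) : ℕ :=
  sInf {k : ℕ | ∃ l : List G, l.length = k ∧ (∀ c ∈ l, ∃ a b : G, c = a * b * a⁻¹ * b⁻¹) ∧ l.prod = h}

/-- the minimum over `(c, w) ∈ J` of `c - ∑ i, w i / N i` -/
def minVal {ι : Type} [Fintype ι] (J : Finset (ℚ × (ι → ℚ))) (hJ : J.Nonempty) (N : ι → ℕ) : ℚ :=
  J.inf' hJ (fun x => x.1 - ∑ i, x.2 i / (N i : ℚ))

theorem setOf_cl {G : Type} [Group G] (h : G) :
    {k : ℕ | ∃ l : List G, l.length = k ∧ (∀ c ∈ l, ∃ a b : G, c = a * b * a⁻¹ * b⁻¹) ∧ l.prod = h} =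
      {k : ℕ | Fill.CL k h} := by
  ext k
  constructor
  · rintro ⟨l, h1, h2, h3⟩
    exact ⟨l, h1, fun c hc => by
      obtain ⟨a, b, h4⟩ := h2 c hc
      exact ⟨a, b, h4.symm⟩, h3⟩
  · rintro ⟨l, h1, h2, h3⟩
    exact ⟨l, h1, fun c hc => by
      obtain ⟨a, b, h4⟩ := h2 c hc
      exact ⟨a, b, h4.symm⟩, h3⟩

theorem result {α ι : Type} [Fintype ι] (r : ι → FreeGroup α)
    (hprim : ∀ i, ∀ (x : FreeGroup α) (m : ℕ), x ^ m = r i → m = 1)
    (hconj : ∀ i j, i ≠ j → ¬ IsConj (r i) (r j) ∧ ¬ IsConj (r i) (r j)⁻¹)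
    (g : FreeGroup α) (hg : g ∈ commutator (FreeGroup α)) :
    ∃ (J : Finset (ℚ × (ι → ℚ))) (hJ : J.Nonempty) (N0 M : ℕ), 0 < M ∧ 0 < N0 ∧
      (∀ x ∈ J, 0 ≤ x.1 ∧ ∀ i, 0 ≤ x.2 i) ∧
      ∀ N : ι → ℕ, (∀ i, N0 ≤ N i) →
        let K : Subgroup (FreeGroup α) := Subgroup.normalClosure (Set.range fun i => r i ^ N i)
        let h : FreeGroup α ⧸ K := (g : FreeGroup α ⧸ K)
        h ∈ commutator (FreeGroup α ⧸ K) ∧
        (∀ n : ℕ, minVal J hJ N * n ≤ cl (h ^ n)) ∧
        (((∀ i, M ∣ N i) ∨ ∃ x ∈ J, x.2 = 0 ∧ x.1 = minVal J hJ N) →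
          Tendsto (fun n : ℕ => (cl (h ^ n) : ℝ) / (n : ℝ)) atTop
            (𝓝 ((minVal J hJ N : ℚ) : ℝ))) := by
  obtain ⟨J, hJ, N0, M, hM, hN0, hpos, hmain⟩ := Fill.main_strong r hprim hconj g hg
  refine ⟨J, hJ, N0, M, hM, hN0, hpos, ?_⟩
  intro N hN K h
  obtain ⟨h1, h2, h3⟩ := hmain N hN (FreeGroup α ⧸ K) (QuotientGroup.mk' K)
    (QuotientGroup.mk'_surjective K) (QuotientGroup.ker_mk' K)
  refine ⟨h1, ?_, ?_⟩
  · intro n
    have hne : {k : ℕ | Fill.CL k (h ^ n)}.Nonempty :=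
      Fill.exists_cl (Subgroup.pow_mem _ h1 n)
    have h4 : Fill.CL (sInf {k : ℕ | Fill.CL k (h ^ n)}) (h ^ n) := Nat.sInf_mem hne
    have h5 := h2 n _ h4
    unfold cl
    rw [setOf_cl]
    exact h5
  · intro hc
    have h4 := h3 hc
    unfold cl
    simp only [setOf_cl]
    exact h4

end Pool.Agent.Results.MP_ed1a61_al.LargeFillings
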